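import Pool.Agent.H17.VS.TargetsB

/-!
# MP_70ba79_ag: symbols of derivations with scalings
-/

set_option autoImplicit false

namespace Pool.Agent.H34.VS

open MvPolynomial SC Pool.Agent.H27.LV Pool.Agent.H17.VG Pool.Agent.H17.CI Pool.Agent.H17.VS

theorem pf_SMV (hCD : T_CD) (hEV : T_EV) : T_SMV := by
  intro R K _ _ _ n ι e F θ θ' l l' a b x
  refine ⟨?_, ?_, ?_⟩
  · funext i
    have h := (hCD R K n θ θ' (F i) 0 a b 0 0 0).2.2.2.2.2.1
    simp only [smb, Pi.add_apply, Pi.smul_apply, h, MvPolynomial.smul_eq_C_mul, smul_eq_mul,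
      map_add, map_mul]
    ring
  · intro hF i
    have h := (hCD R K n θ θ' (F i) 0 a b 0 0 (e i + 1)).2.2.2.2.2.2.2 (hF i)
    have h2 : (C (l i) * F i).IsHomogeneous (e i + 1) := by
      have := (isHomogeneous_C (Fin (n + 1)) (l i)).mul (hF i)
      rwa [Nat.zero_add] at this
    exact h.add h2
  · intro i
    have h := hEV R K n (θ, 0) (F i) x
    have e1 : opF ((θ, 0) : Op R K n) (F i) = cD θ (F i) := by
      simp [opF]
    have e2 : opV ((θ, 0) : Op R K n) x = fun j => θ (x j) := by
      funext j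
      simp [opV]
    rw [e1, e2] at h
    have e3 : eval x (dir (fun j => θ (x j)) (F i)) =
        ∑ j, θ (x j) * eval x (pderiv j (F i)) := by
      simp [dir, map_sum]
    rw [e3] at h
    simp only [smb, map_add, map_mul, eval_C]
    rw [add_sub_cancel_right]
    exact h

end Pool.Agent.H34.VS
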